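import Pool.Agent.Lib.SCG.Main

namespace Pool.Agent.Results.MP_f496b1_nt.SunCongruences

open Pool.Agent.Lib.SCG

/-- Sun's supercongruences for `∑ C(-1/3,k) C(-1/6,k) / (-16)^k` and
`∑ C(-2/3,k) C(-5/6,k) / (-16)^k`, all three cases. -/
theorem result (p : ℕ) (hp : p.Prime) (h3 : 3 < p) :
    (∀ x y : ℤ, (4 : ℤ) * p = x ^ 2 + 51 * y ^ 2 →
      Cong p 2 (S1 p) ((jacobiSym 17 p : ℤ) * epsp p * S2 p) ∧
      Cong p 2 ((jacobiSym 17 p : ℤ) * epsp p * S2 p) (-(jacobiSym x 3 : ℤ) * (x - p / x))) ∧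
    (p ≠ 17 → ∀ x y : ℤ, (4 : ℤ) * p = 17 * x ^ 2 + 3 * y ^ 2 →
      Cong p 2 (S1 p) ((jacobiSym 17 p : ℤ) * epsp p * S2 p) ∧
      Cong p 2 ((jacobiSym 17 p : ℤ) * epsp p * S2 p)
        (1 / 4 * (jacobiSym x 3 : ℤ) * (17 * x - p / x))) ∧
    (jacobiSym p 3 = 1 → jacobiSym p 17 = -1 →
      Cong p 1 (S1 p) ((jacobiSym 17 p : ℤ) * epsp p * S2 p) ∧
      Cong p 1 ((jacobiSym 17 p : ℤ) * epsp p * S2 p) 0) :=
  main p hp h3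

end Pool.Agent.Results.MP_f496b1_nt.SunCongruences
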